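import Pool.Agent.Run7.h672.Conv

set_option autoImplicit false

/-- The McCuaig-Ota conjecture holds, for every order n, in the class of cubic 3-connected graphs. -/
theorem Pool.Agent.Results.MP_d9512b_co.CubicGraphs.result :
    ∀ n : ℕ, 1 ≤ n → ∃ N : ℕ, ∀ (V : Type) [Fintype V] [DecidableEq V] (G : SimpleGraph V),
      N ≤ Fintype.card V → (∀ v : V, (G.neighborSet v).ncard = 3) →
      (4 ≤ Fintype.card V ∧
        ∀ X : Finset V, X.card ≤ 2 → (G.induce ((↑X : Set V)ᶜ)).Connected) →
      ∃ S : Finset V, ∃ s0 ∈ S, S.card = n ∧ (G.induce (↑S : Set V)).Connected ∧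
        (4 ≤ (insert s0 ((↑S : Set V)ᶜ)).ncard ∧
          ∀ X : Finset V, X.card ≤ 2 →
            ((SimpleGraph.fromRel (fun x y : V => ∃ a b, G.Adj a b ∧
                (if a ∈ S then s0 else a) = x ∧ (if b ∈ S then s0 else b) = y)).induce
              (insert s0 ((↑S : Set V)ᶜ) \ (↑X : Set V))).Connected) :=
  fun n hn => Run7.h672.cubic_main n hn
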